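import Pool.Agent.Lib.MPf08bf1.Poly
import Pool.Agent.Lib.MPf08bf1.Bridge
import Pool.Agent.Lib.MPf08bf1.BridgeAt

/-!
# `L²`-Betti numbers of kernels of epimorphisms to `ℤ` are thicknesses of one polytope

Answer to Q1: YES.  Let `Γ` be a finitely generated group satisfying the Atiyah Conjecture and
possessing a resolution of `ℤ` by finitely generated free `ℤ[Γ]`-modules (every group of type F
is such a group), and let `n` be a degree with `b_n^{(2)}(Γ) = 0`.  Then there is a polytope
`P ⊂ H_1(Γ; ℝ)` with `b_n^{(2)}(ker φ) = th_φ(P)` for every epimorphism `φ : Γ → ℤ`.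

All definitions used in the statement are in `Lib/MPf08bf1/Stmt.lean`.

Idea of the proof: over the division closure `D(Γ)` of `ℤ[Γ]` in the algebra of affiliated
operators, `b_n^{(2)}(ker φ)` is the dimension over `D(ker φ)` of the `n`-th homology of the
complex with coefficients in the crossed product `D(ker φ) * ℤ`.  The function
`φ ↦ (divisibility of φ) · b_n^{(2)}(ker φ)` on `Hom(Γ, ℤ)` is shown to be subadditive by a
growth argument for twisted Laurent polynomials in two variables over `D(ker φ₁ ∩ ker φ₂)`, and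
an integer-valued sublinear function on a finitely generated free abelian group is the support
function of an integral polytope.
-/

namespace Pool.Agent.Results.MP_f08bf1_al.KernelThickness

open Pool.Agent.Lib.MPf08bf1

theorem result (Γ : Type) [Group Γ] [Group.FG Γ] (hA : Stmt.AtiyahConj Γ) (C : FreeRes Γ) (n : ℕ)
    (h0 : Stmt.l2Betti Γ n = 0) :
    ∃ S : Finset (H1R Γ), S.Nonempty ∧
      ∀ φ : Γ →* Multiplicative ℤ, Function.Surjective φ →
        ∃ t : ℝ, IsThickness (realForm φ) (convexHull ℝ (S : Set (H1R Γ))) t ∧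
          Stmt.l2Betti φ.ker n = ENNReal.ofReal t := by
  rw [l2Betti_bridge] at h0
  obtain ⟨β, hβ1, hβ2⟩ := exists_beta (rkInt_of_atiyah (atiyah_bridge hA)) C n h0
  obtain ⟨S, hS, h⟩ := exists_polytope β hβ2
  refine ⟨S, hS, fun φ hφ => ⟨β φ.ker, h φ hφ, ?_⟩⟩
  rw [l2Betti_bridge, hβ1 φ hφ, ENNReal.ofReal_natCast]

end Pool.Agent.Results.MP_f08bf1_al.KernelThickness
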